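import Mathlib
import Pool.Agent.MP_c0c4a4_co.Defs
import Pool.Agent.MP_c0c4a4_co.N5.Final
import Pool.Agent.MP_c0c4a4_co.Six
import Pool.Agent.MP_c0c4a4_co.Seven

set_option autoImplicit false

namespace Pool.Agent.Results.MP_c0c4a4_co.StrongDraw

open Pool.Agent.MP_c0c4a4_co

/-- In the games on the cubes of side 5, 6 and 7 the second player forces a strong draw. -/
theorem result : ∀ n ∈ ({5, 6, 7} : Finset ℕ), SecondForcesStrongDraw n := by
  intro n hn
  have hn' : n = 5 ∨ n = 6 ∨ n = 7 := by simpa using hn
  rcases hn' with rfl | rfl | rfl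
  · exact five
  · exact six
  · exact seven

end Pool.Agent.Results.MP_c0c4a4_co.StrongDraw
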